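import Pool.Agent.L0h1.SJ.StmA

/-!
# Project SJ (helper1), modules CH0, CHA, CHB, CH1: the characters of the tuples
-/

set_option autoImplicit false
set_option linter.all false
set_option maxHeartbeats 2000000

open scoped Classical
open Finset

namespace Pool.Agent.L0h37.SJ

open Pool.Agent.L0h1.SJ

theorem sr_add (a b : ZMod 2) : sr (a + b) = sr a * sr b := by
  unfold sr
  have h : ∀ a b : ZMod 2, (a + b = 0 ↔ (a = 0 ↔ b = 0)) := by decide
  by_cases ha : a = 0 <;> by_cases hb : b = 0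
  · rw [if_pos ha, if_pos hb, if_pos ((h a b).2 ⟨fun _ => hb, fun _ => ha⟩), mul_one]
  · rw [if_pos ha, if_neg hb, if_neg fun h' => hb (((h a b).1 h').1 ha), one_mul]
  · rw [if_neg ha, if_pos hb, if_neg fun h' => ha (((h a b).1 h').2 hb), mul_one]
  · rw [if_neg ha, if_neg hb, if_pos ((h a b).2 ⟨fun h' => absurd h' ha, fun h' => absurd h' hb⟩)]
    norm_num

theorem sr_zero : sr 0 = 1 := by
  unfold sr
  rw [if_pos rfl]

theorem abs_sr (a : ZMod 2) : |sr a| = 1 := by
  unfold sr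
  split_ifs <;> norm_num

theorem sr_ne {a : ZMod 2} (h : a ≠ 0) : sr a = -1 := by
  unfold sr
  rw [if_neg h]

/-- translation by an element which changes the sign -/
theorem sum_zero {G : Type} [Fintype G] [AddGroup G] (f : G → ZMod 2) (e : G) (c : ZMod 2)
    (hc : c ≠ 0) (h : ∀ g, f (g + e) = f g + c) : ∑ g, sr (f g) = 0 := by
  have h1 : ∑ g, sr (f g) = ∑ g, sr (f (g + e)) :=
    (Fintype.sum_equiv (Equiv.addRight e) (fun g => sr (f (g + e))) (fun g => sr (f g))
      (fun g => rfl)).symm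
  have h2 : ∑ g, sr (f (g + e)) = -∑ g, sr (f g) := by
    rw [← sum_neg_distrib]
    refine sum_congr rfl fun g _ => ?_
    rw [h, sr_add, sr_ne hc]
    ring
  linarith

/-- orthogonality on `𝔽_2^J` -/
theorem sum_sr {J : Type} [Fintype J] (κ : J → ZMod 2) :
    ∑ g : J → ZMod 2, sr (∑ k, g k * κ k) =
      if ∀ k, κ k = 0 then (2 : ℝ) ^ Fintype.card J else 0 := by
  split_ifs with h
  · have h1 : ∀ g : J → ZMod 2, sr (∑ k, g k * κ k) = 1 := by
      intro g
      rw [sum_eq_zero fun k _ => by rw [h k, mul_zero], sr_zero]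
    rw [sum_congr rfl fun g _ => h1 g, sum_const, card_univ, Fintype.card_fun, ZMod.card]
    simp
  · push Not at h
    obtain ⟨k, hk⟩ := h
    refine sum_zero (fun g : J → ZMod 2 => ∑ k, g k * κ k) (Pi.single k 1) (κ k) hk fun g => ?_
    have h1 : ∀ k', (g + Pi.single k 1 : J → ZMod 2) k' * κ k' = g k' * κ k' + if k' = k then κ k else 0 := by
      intro k'
      rw [Pi.add_apply, Pi.single_apply, add_mul]
      congr 1
      split_ifs with h'
      · rw [h', one_mul]
      · rw [zero_mul]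
    show ∑ k', (g + Pi.single k 1 : J → ZMod 2) k' * κ k' = _
    rw [sum_congr rfl fun k' _ => h1 k', sum_add_distrib, sum_ite_eq', if_pos (mem_univ _)]

section

variable {t : ℕ} {K : Fin t → ℕ} {U : Fin t → Type} [∀ l, Fintype (U l)] {J : Type} [Fintype J]

/-- the tuple with the vector `g` at the place `i` -/
noncomputable def Eg (K : Fin t → ℕ) (U : Fin t → Type) {J : Type} (i : Ix K) (g : J → ZMod 2) :
    Tu K U J :=
  fun l' i' p => if (⟨l', i'⟩ : Ix K) = i then Sum.elim (fun _ => 0) g p else 0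

theorem Eg_inr (i j : Ix K) (g : J → ZMod 2) (k : J) :
    Eg K U i g j.1 j.2 (Sum.inr k) = if j = i then g k else 0 := rfl

theorem Eg_inl (i j : Ix K) (g : J → ZMod 2) (v : U j.1) :
    Eg K U i g j.1 j.2 (Sum.inl v) = 0 := by
  show (if j = i then (0 : ZMod 2) else 0) = 0
  rw [ite_self]

theorem Xf_add (ξ η : Tu K U J) (q : J) (j : Ix K) : Xf (ξ + η) q j = Xf ξ q j + Xf η q j := rfl

theorem tg_add (N : ∀ l, U l ⊕ J → U l ⊕ J → ZMod 2) (ξ η : Tu K U J) (q : J) (j : Ix K) :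
    tg N (ξ + η) q j = tg N ξ q j + tg N η q j := by
  unfold tg
  rw [← sum_add_distrib]
  refine sum_congr rfl fun p _ => ?_
  show (ξ j.1 j.2 p + η j.1 j.2 p + (ξ j.1 j.2 (Sum.inr q) + η j.1 j.2 (Sum.inr q))) * _ = _
  ring

theorem sq_add (N : ∀ l, U l ⊕ J → U l ⊕ J → ZMod 2) (ξ η : Tu K U J) (l : Fin t) (i : Fin (K l))
    (v : U l) : sq N (ξ + η) l i v = sq N ξ l i v + sq N η l i v := by
  unfold Pool.Agent.L0h1.SJ.sq
  rw [← sum_add_distrib]
  refine sum_congr rfl fun p _ => ?_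
  show (ξ l i p + η l i p + (ξ l i (Sum.inl v) + η l i (Sum.inl v))) * _ = _
  ring

theorem sq_Eg (N : ∀ l, U l ⊕ J → U l ⊕ J → ZMod 2) (i j : Ix K) (g : J → ZMod 2) (v : U j.1) :
    sq N (Eg K U i g) j.1 j.2 v =
      if j = i then ∑ k, g k * N j.1 (Sum.inl v) (Sum.inr k) else 0 := by
  unfold Pool.Agent.L0h1.SJ.sq
  rw [Fintype.sum_sum_type]
  have h1 : ∑ v', (Eg K U i g j.1 j.2 (Sum.inl v') + Eg K U i g j.1 j.2 (Sum.inl v)) *
      N j.1 (Sum.inl v) (Sum.inl v') = 0 :=
    sum_eq_zero fun v' _ => by rw [Eg_inl, Eg_inl, add_zero, zero_mul]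
  rw [h1, zero_add]
  split_ifs with h
  · refine sum_congr rfl fun k _ => ?_
    rw [Eg_inl, Eg_inr, if_pos h, add_zero]
  · refine sum_eq_zero fun k _ => ?_
    rw [Eg_inl, Eg_inr, if_neg h, add_zero, zero_mul]

/-- the part of the small equations -/
theorem small_Eg (N : ∀ l, U l ⊕ J → U l ⊕ J → ZMod 2) (b : ∀ l, Fin (K l) → U l → ZMod 2)
    (i : Ix K) (g : J → ZMod 2) :
    ∑ l, ∑ i', ∑ v, b l i' v * sq N (Eg K U i g) l i' v =
      ∑ k, g k * ∑ v, b i.1 i.2 v * N i.1 (Sum.inl v) (Sum.inr k) := by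
  have h1 : ∑ l, ∑ i', ∑ v, b l i' v * sq N (Eg K U i g) l i' v =
      ∑ j : Ix K, ∑ v, b j.1 j.2 v * sq N (Eg K U i g) j.1 j.2 v :=
    (Fintype.sum_sigma' (fun l i' => ∑ v, b l i' v * sq N (Eg K U i g) l i' v)).symm
  rw [h1, Fintype.sum_eq_single i]
  · simp only [mul_sum]
    rw [sum_comm]
    refine sum_congr rfl fun v _ => ?_
    rw [sq_Eg, if_pos rfl, mul_sum]
    refine sum_congr rfl fun k _ => ?_
    ring
  · intro j hj
    refine sum_eq_zero fun v _ => ?_
    rw [sq_Eg, if_neg hj, mul_zero]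

theorem t_CH0 : S_CH0 := by
  intro t n K U _ J _ w uU uJ N NJ x JR H b hb
  have hne : ∃ i : Ix K, ∃ v, b i.1 i.2 v ≠ 0 := by
    by_contra h
    push Not at h
    apply hb
    funext l i v
    exact h ⟨l, i⟩ v
  obtain ⟨i, v, hv⟩ := hne
  obtain ⟨k, hk⟩ := H.lab i.1 (b i.1 i.2) 0 (Or.inl ⟨v, hv⟩)
  rw [zero_mul, add_zero] at hk
  refine sum_zero (fun ξ : Tu K U J => ch N 0 b ξ) (Eg K U i (Pi.single k 1)) _ hk fun ξ => ?_
  have h0 : ∀ ξ : Tu K U J, ch N 0 b ξ = ∑ l, ∑ i, ∑ v, b l i v * sq N ξ l i v := by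
    intro ξ
    unfold ch
    have : pr (fun q i => ∑ j, (0 : Ix K → Ix K → ZMod 2) i j * Xf ξ q j) (tg N ξ) = 0 := by
      unfold pr
      refine sum_eq_zero fun q _ => sum_eq_zero fun i _ => ?_
      have : ∑ j, (0 : Ix K → Ix K → ZMod 2) i j * Xf ξ q j = 0 :=
        sum_eq_zero fun j _ => by
          show (0 : ZMod 2) * _ = 0
          rw [zero_mul]
      show (∑ j, (0 : Ix K → Ix K → ZMod 2) i j * Xf ξ q j) * _ = 0
      rw [this, zero_mul]
    rw [this, zero_add]
  show ch N 0 b (ξ + Eg K U i (Pi.single k 1)) = ch N 0 b ξ + _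
  rw [h0, h0]
  simp only [sq_add, mul_add, sum_add_distrib]
  rw [small_Eg]
  congr 1
  rw [Fintype.sum_eq_single k]
  · rw [Pi.single_eq_same, one_mul]
  · intro k' hk'
    rw [Pi.single_eq_of_ne hk', zero_mul]

/-- the left sides at the large indices -/
theorem tg_eq {n : ℕ} {w : ∀ l, U l ⊕ J → ZMod 2} {uU : ∀ l, U l → ZMod 2} {uJ : J → ZMod 2}
    {N : ∀ l, U l ⊕ J → U l ⊕ J → ZMod 2} {NJ : J → J → ZMod 2}
    {x : Fin t → Fin n → ZMod 2} {JR : Fin n → Finset J} (H : Hl w uU uJ N NJ x JR)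
    (ξ : Tu K U J) (q : J) (j : Ix K) :
    tg N ξ q j = ∑ k, (Xf ξ k j + Xf ξ q j) * NJ q k +
      (∑ v, ξ j.1 j.2 (Sum.inl v) * N j.1 (Sum.inr q) (Sum.inl v) + Xf ξ q j * de N j.1 q) := by
  unfold tg
  rw [Fintype.sum_sum_type, add_comm]
  congr 1
  · refine sum_congr rfl fun k _ => ?_
    by_cases hk : q = k
    · rw [hk]
      show (Xf ξ k j + Xf ξ k j) * _ = (Xf ξ k j + Xf ξ k j) * _
      rw [CharTwo.add_self_eq_zero, zero_mul, zero_mul]
    · rw [H.com j.1 q k hk]
      rfl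
  · unfold de
    rw [mul_sum, ← sum_add_distrib]
    refine sum_congr rfl fun v _ => ?_
    show (_ + Xf ξ q j) * _ = _
    ring

/-- **the change of the character** -/
theorem ch_add {n : ℕ} {w : ∀ l, U l ⊕ J → ZMod 2} {uU : ∀ l, U l → ZMod 2} {uJ : J → ZMod 2}
    {N : ∀ l, U l ⊕ J → U l ⊕ J → ZMod 2} {NJ : J → J → ZMod 2}
    {x : Fin t → Fin n → ZMod 2} {JR : Fin n → Finset J} (H : Hl w uU uJ N NJ x JR)
    {A : Ix K → Ix K → ZMod 2} (hA : A ∈ Al (Ix K)) (b : ∀ l, Fin (K l) → U l → ZMod 2)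
    (i : Ix K) (ξ : Tu K U J) (g : J → ZMod 2) :
    ch N A b (ξ + Eg K U i g) = ch N A b ξ + ∑ k, g k * kap uJ N A b ξ i k := by
  obtain ⟨hs, hd⟩ := (mem_filter.1 hA).2
  obtain ⟨Y, hY⟩ : ∃ Y : J → ZMod 2, Y = fun q => ∑ j, A i j * Xf ξ q j := ⟨_, rfl⟩
  have hXE : ∀ q j, Xf (Eg K U i g) q j = if j = i then g q else 0 := fun q j => rfl
  have hAE : ∀ q j, ∑ j', A j j' * Xf (Eg K U i g) q j' = A j i * g q := by
    intro q j
    rw [Fintype.sum_eq_single i]
    · rw [hXE, if_pos rfl]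
    · intro j' hj'
      rw [hXE, if_neg hj', mul_zero]
  have hAX : ∀ q j, ∑ j', A j j' * Xf (ξ + Eg K U i g) q j' =
      ∑ j', A j j' * Xf ξ q j' + A j i * g q := by
    intro q j
    rw [← hAE q j, ← sum_add_distrib]
    refine sum_congr rfl fun j' _ => ?_
    rw [Xf_add, mul_add]
  have htE : ∀ q j, tg N (Eg K U i g) q j =
      if j = i then ∑ k, (g k + g q) * NJ q k + g q * de N i.1 q else 0 := by
    intro q j
    rw [tg_eq H]
    have h1 : ∑ v, Eg K U i g j.1 j.2 (Sum.inl v) * N j.1 (Sum.inr q) (Sum.inl v) = 0 :=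
      sum_eq_zero fun v _ => by rw [Eg_inl, zero_mul]
    rw [h1, zero_add]
    split_ifs with h
    · subst h
      simp only [hXE, if_true]
    · simp only [hXE, if_neg h, add_zero, zero_mul, sum_const_zero]
  -- expansion
  have hexp : ch N A b (ξ + Eg K U i g) = ch N A b ξ +
      (∑ q, Y q * (∑ k, (g k + g q) * NJ q k + g q * de N i.1 q) +
        ∑ q, g q * ∑ j, A i j * tg N ξ q j) +
      ∑ k, g k * ∑ v, b i.1 i.2 v * N i.1 (Sum.inl v) (Sum.inr k) := by
    unfold ch
    have e0 : ∑ l, ∑ i', ∑ v, b l i' v * Pool.Agent.L0h1.SJ.sq N (ξ + Eg K U i g) l i' v =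
        ∑ l, ∑ i', ∑ v, b l i' v * Pool.Agent.L0h1.SJ.sq N ξ l i' v +
          ∑ k, g k * ∑ v, b i.1 i.2 v * N i.1 (Sum.inl v) (Sum.inr k) := by
      rw [← small_Eg N b i g]
      simp only [sq_add, mul_add, sum_add_distrib]
    rw [e0]
    have e1 : pr (fun q j => ∑ j', A j j' * Xf (ξ + Eg K U i g) q j') (tg N (ξ + Eg K U i g)) =
        pr (fun q j => ∑ j', A j j' * Xf ξ q j') (tg N ξ) +
          (∑ q, Y q * (∑ k, (g k + g q) * NJ q k + g q * de N i.1 q) +
        ∑ q, g q * ∑ j, A i j * tg N ξ q j) := by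
      unfold pr
      rw [← sum_add_distrib, ← sum_add_distrib]
      refine sum_congr rfl fun q _ => ?_
      have e2 : ∀ j, (∑ j', A j j' * Xf (ξ + Eg K U i g) q j') * tg N (ξ + Eg K U i g) q j =
          (∑ j', A j j' * Xf ξ q j') * tg N ξ q j +
            ((if j = i then Y q * (∑ k, (g k + g q) * NJ q k + g q * de N i.1 q) else 0) +
              g q * (A i j * tg N ξ q j)) := by
        intro j
        rw [hAX, tg_add, htE]
        split_ifs with h
        · rw [h, hd i, hY]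
          ring
        · rw [hs j i]
          ring
      rw [sum_congr rfl fun j _ => e2 j, sum_add_distrib, sum_add_distrib, sum_ite_eq',
        if_pos (mem_univ _), ← mul_sum]
    rw [e1]
    ring
  -- the quadratic part
  have hT : ∀ q, ∑ j, A i j * tg N ξ q j = ∑ k, (Y k + Y q) * NJ q k +
      ∑ j, A i j * (∑ v, ξ j.1 j.2 (Sum.inl v) * N j.1 (Sum.inr q) (Sum.inl v) +
        Xf ξ q j * de N j.1 q) := by
    intro q
    simp only [tg_eq H ξ q, mul_add, sum_add_distrib]
    congr 1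
    rw [hY]
    have e1 : ∀ j, A i j * ∑ k, (Xf ξ k j + Xf ξ q j) * NJ q k =
        ∑ k, (A i j * Xf ξ k j + A i j * Xf ξ q j) * NJ q k := by
      intro j
      rw [mul_sum]
      refine sum_congr rfl fun k _ => ?_
      ring
    rw [sum_congr rfl fun j _ => e1 j, sum_comm]
    refine sum_congr rfl fun k _ => ?_
    rw [← sum_mul, sum_add_distrib]
  have hquad : ∑ q, Y q * (∑ k, (g k + g q) * NJ q k) + ∑ q, g q * ∑ k, (Y k + Y q) * NJ q k =
      ∑ k, g k * (uJ k * ∑ q, uJ q * Y q + uJ k * Y k) := by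
    have c1 : ∑ q, Y q * (∑ k, (g k + g q) * NJ q k) + ∑ q, g q * ∑ k, (Y k + Y q) * NJ q k =
        ∑ q, ∑ k, NJ q k * (Y q * g k) + ∑ q, ∑ k, NJ q k * (Y k * g q) := by
      rw [← sum_add_distrib, ← sum_add_distrib]
      refine sum_congr rfl fun q _ => ?_
      rw [mul_sum, mul_sum, ← sum_add_distrib, ← sum_add_distrib]
      refine sum_congr rfl fun k _ => ?_
      have : ∀ a b c d e : ZMod 2, a * ((b + c) * d) + c * ((e + a) * d) =
          d * (a * b) + d * (e * c) := by decide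
      exact this _ _ _ _ _
    have c2 : ∑ q, ∑ k, NJ q k * (Y k * g q) = ∑ q, ∑ k, NJ k q * (Y q * g k) := sum_comm
    rw [c1, c2, ← sum_add_distrib]
    have c3 : ∀ q, ∑ k, NJ q k * (Y q * g k) + ∑ k, NJ k q * (Y q * g k) =
        ∑ k, (g k * uJ k * (uJ q * Y q) + if q = k then g k * (uJ k * Y k) else 0) := by
      intro q
      rw [← sum_add_distrib]
      refine sum_congr rfl fun k _ => ?_
      split_ifs with h
      · rw [h]
        have : ∀ a b c d : ZMod 2, a * (b * c) + a * (b * c) = c * d * (d * b) + c * (d * b) := by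
          decide
        exact this _ _ _ _
      · have h1 := H.rc i.1 (Sum.inr q) (Sum.inr k) (fun h' => h (Sum.inr.inj h'))
        rw [H.w1, H.w1, one_mul, one_mul, H.com i.1 q k h, H.com i.1 k q (Ne.symm h)] at h1
        have h2 : NJ q k + NJ k q = uJ q * uJ k := h1
        rw [← add_mul, h2]
        ring
    rw [sum_congr rfl fun q _ => c3 q, sum_comm]
    refine sum_congr rfl fun k _ => ?_
    rw [sum_add_distrib, sum_ite_eq', if_pos (mem_univ _), ← mul_sum, mul_add, mul_assoc]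
  have hlin : ∑ q, Y q * (g q * de N i.1 q) + ∑ q, g q * ∑ j, A i j *
      (∑ v, ξ j.1 j.2 (Sum.inl v) * N j.1 (Sum.inr q) (Sum.inl v) + Xf ξ q j * de N j.1 q) =
      ∑ k, g k * ∑ j, A i j * ((de N i.1 k + de N j.1 k) * Xf ξ k j +
        ∑ v, ξ j.1 j.2 (Sum.inl v) * N j.1 (Sum.inr k) (Sum.inl v)) := by
    rw [← sum_add_distrib]
    refine sum_congr rfl fun k _ => ?_
    have d1 : Y k * (g k * de N i.1 k) = g k * ∑ j, A i j * (de N i.1 k * Xf ξ k j) := by
      rw [hY]
      simp only [sum_mul, mul_sum]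
      refine sum_congr rfl fun j _ => ?_
      ring
    rw [d1, ← mul_add, ← sum_add_distrib]
    congr 1
    refine sum_congr rfl fun j _ => ?_
    ring
  have hall : ∑ q, Y q * (∑ k, (g k + g q) * NJ q k + g q * de N i.1 q) +
        ∑ q, g q * ∑ j, A i j * tg N ξ q j =
      ∑ k, g k * (uJ k * ∑ q, uJ q * Y q + uJ k * Y k) +
        ∑ k, g k * ∑ j, A i j * ((de N i.1 k + de N j.1 k) * Xf ξ k j +
        ∑ v, ξ j.1 j.2 (Sum.inl v) * N j.1 (Sum.inr k) (Sum.inl v)) := by
    rw [← hquad, ← hlin]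
    simp only [hT, mul_add, sum_add_distrib]
    ring
  rw [hexp, hall, add_assoc, ← sum_add_distrib, ← sum_add_distrib]
  congr 1
  refine sum_congr rfl fun k _ => ?_
  rw [← mul_add, ← mul_add]
  congr 1
  unfold kap
  congr 1
  have f1 : ∑ q, uJ q * Y q = ∑ j, A i j * ∑ q, uJ q * Xf ξ q j := by
    rw [hY]
    simp only [mul_sum]
    rw [sum_comm]
    refine sum_congr rfl fun j _ => sum_congr rfl fun q _ => ?_
    ring
  have f2 : uJ k * Y k = ∑ j, A i j * (uJ k * Xf ξ k j) := by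
    rw [hY, mul_sum]
    refine sum_congr rfl fun j _ => ?_
    ring
  rw [f1, f2, add_assoc, ← sum_add_distrib]
  congr 1
  refine sum_congr rfl fun j _ => ?_
  ring

theorem t_CHA : S_CHA := by
  intro t n K U _ J _ w uU uJ N NJ x JR H A hA b i
  have h1 : ∀ g : J → ZMod 2, ∑ ξ : Tu K U J, sr (ch N A b ξ) =
      ∑ ξ : Tu K U J, sr (ch N A b ξ) * sr (∑ k, g k * kap uJ N A b ξ i k) := by
    intro g
    have h2 : ∑ ξ : Tu K U J, sr (ch N A b ξ) =
        ∑ ξ : Tu K U J, sr (ch N A b (ξ + Eg K U i g)) :=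
      (Fintype.sum_equiv (Equiv.addRight (Eg K U i g))
        (fun ξ => sr (ch N A b (ξ + Eg K U i g))) (fun ξ => sr (ch N A b ξ)) (fun _ => rfl)).symm
    rw [h2]
    refine sum_congr rfl fun ξ _ => ?_
    rw [ch_add H hA, sr_add]
  have h3 : (2 : ℝ) ^ Fintype.card J * ∑ ξ : Tu K U J, sr (ch N A b ξ) =
      (2 : ℝ) ^ Fintype.card J * ∑ ξ ∈ univ.filter (fun ξ : Tu K U J =>
        ∀ k, kap uJ N A b ξ i k = 0), sr (ch N A b ξ) := by
    have h4 : ∑ g : J → ZMod 2, ∑ ξ : Tu K U J, sr (ch N A b ξ) =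
        (2 : ℝ) ^ Fintype.card J * ∑ ξ : Tu K U J, sr (ch N A b ξ) := by
      rw [sum_const, card_univ, Fintype.card_fun, ZMod.card, nsmul_eq_mul]
      push_cast
      rfl
    rw [← h4, sum_congr rfl fun g _ => h1 g, sum_comm, sum_filter, mul_sum]
    refine sum_congr rfl fun ξ _ => ?_
    rw [← mul_sum, sum_sr]
    split_ifs <;> ring
  have h5 := mul_left_cancel₀ (by positivity) h3
  rw [h5]
  refine (abs_sum_le_sum_abs _ _).trans (le_of_eq ?_)
  rw [sum_congr rfl fun ξ _ => abs_sr _, sum_const, nsmul_eq_mul, mul_one]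

theorem t_CHB : S_CHB := by
  intro t n K U _ J _ w uU uJ N NJ x JR H V hV1 hV2 A hA b i j hij
  have hij1 : A i j = 1 := by
    have : ∀ a : ZMod 2, a ≠ 0 → a = 1 := by decide
    exact this _ hij
  obtain ⟨θ, hθ⟩ : ∃ θ : J → ZMod 2, θ = fun k => uJ k + de N i.1 k + de N j.1 k := ⟨_, rfl⟩
  obtain ⟨T, hT⟩ : ∃ T : Finset J, T = univ.filter fun k => θ k = 1 := ⟨_, rfl⟩
  have hTV : V ≤ T.card := by
    by_cases hl : i.1 = j.1
    · refine hV1.trans (card_le_card ?_)
      intro k hk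
      rw [hT, mem_filter]
      refine ⟨mem_univ _, ?_⟩
      rw [hθ]
      show uJ k + de N i.1 k + de N j.1 k = 1
      rw [hl, add_assoc, CharTwo.add_self_eq_zero, add_zero]
      exact (mem_filter.1 hk).2
    · obtain ⟨r, hr⟩ := H.sep _ _ hl
      refine (hV2 r).trans (card_le_card ?_)
      intro k hk
      obtain ⟨h1, h2⟩ := H.jr r k hk
      have h3 := h2 i.1 j.1
      rw [hT, mem_filter]
      refine ⟨mem_univ _, ?_⟩
      rw [hθ]
      show uJ k + de N i.1 k + de N j.1 k = 1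
      rw [h1]
      have : ∀ a b c d : ZMod 2, a + b = c + d → b ≠ d → 0 + a + c = 1 := by decide
      exact this _ _ _ _ h3 hr
  -- the coefficients with a fixed value of the global sum
  obtain ⟨kc, hkc⟩ : ∃ kc : ZMod 2 → Tu K U J → J → ZMod 2, kc = fun c ξ k =>
      uJ k * c + ∑ j : Ix K, A i j * ((uJ k + de N i.1 k + de N j.1 k) * Xf ξ k j +
      ∑ v, ξ j.1 j.2 (Sum.inl v) * N j.1 (Sum.inr k) (Sum.inl v)) +
        ∑ v, b i.1 i.2 v * N i.1 (Sum.inl v) (Sum.inr k) := ⟨_, rfl⟩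
  have hkE : ∀ c ξ (h : J → ZMod 2) k, kc c (ξ + Eg K U j h) k = kc c ξ k + θ k * h k := by
    intro c ξ h k
    rw [hkc]
    beta_reduce
    have e1 : ∀ j' : Ix K, A i j' * ((uJ k + de N i.1 k + de N j'.1 k) * Xf (ξ + Eg K U j h) k j' +
        ∑ v, (ξ + Eg K U j h) j'.1 j'.2 (Sum.inl v) * N j'.1 (Sum.inr k) (Sum.inl v)) =
        A i j' * ((uJ k + de N i.1 k + de N j'.1 k) * Xf ξ k j' +
        ∑ v, ξ j'.1 j'.2 (Sum.inl v) * N j'.1 (Sum.inr k) (Sum.inl v)) +
          if j' = j then θ k * h k else 0 := by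
      intro j'
      have e2 : ∑ v, (ξ + Eg K U j h) j'.1 j'.2 (Sum.inl v) * N j'.1 (Sum.inr k) (Sum.inl v) =
          ∑ v, ξ j'.1 j'.2 (Sum.inl v) * N j'.1 (Sum.inr k) (Sum.inl v) := by
        refine sum_congr rfl fun v _ => ?_
        show (ξ j'.1 j'.2 (Sum.inl v) + Eg K U j h j'.1 j'.2 (Sum.inl v)) * _ = _
        rw [Eg_inl, add_zero]
      rw [e2, Xf_add]
      have e3 : Xf (Eg K U j h) k j' = if j' = j then h k else 0 := rfl
      rw [e3]
      split_ifs with hj
      · rw [hj, hij1, hθ]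
        ring
      · ring
    rw [sum_congr rfl fun j' _ => e1 j', sum_add_distrib, sum_ite_eq', if_pos (mem_univ _)]
    ring
  -- the counting
  have hcount : ∀ c : ZMod 2, ((univ.filter fun ξ : Tu K U J => ∀ k, kc c ξ k = 0).card : ℝ) ≤
      (1 / 2 : ℝ) ^ V * Fintype.card (Tu K U J) := by
    intro c
    have h1 : (univ.filter fun ξ : Tu K U J => ∀ k, kc c ξ k = 0).card * 2 ^ T.card ≤
        Fintype.card (Tu K U J) := by
      have h2 : ((univ.filter fun ξ : Tu K U J => ∀ k, kc c ξ k = 0) ×ˢ T.powerset).card ≤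
          (univ : Finset (Tu K U J)).card := by
        refine card_le_card_of_injOn (fun p => p.1 + Eg K U j (fun k => if k ∈ p.2 then 1 else 0))
          (fun _ _ => mem_coe.2 (mem_univ _)) ?_
        rintro ⟨ξ, P⟩ hp ⟨ξ', P'⟩ hp' heq
        obtain ⟨a1, a2⟩ := mem_product.1 (mem_coe.1 hp)
        obtain ⟨a3, a4⟩ := mem_product.1 (mem_coe.1 hp')
        have a1' := (mem_filter.1 a1).2
        have a3' := (mem_filter.1 a3).2
        have a2' := mem_powerset.1 a2
        have a4' := mem_powerset.1 a4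
        have heq' : ξ + Eg K U j (fun k => if k ∈ P then 1 else 0) =
          ξ' + Eg K U j (fun k => if k ∈ P' then 1 else 0) := heq
        have hval : ∀ k, θ k * (if k ∈ P then 1 else 0) = θ k * (if k ∈ P' then 1 else 0) := by
          intro k
          have b1 := hkE c ξ (fun k => if k ∈ P then 1 else 0) k
          have b2 := hkE c ξ' (fun k => if k ∈ P' then 1 else 0) k
          rw [heq', b2] at b1
          have b3 : kc c ξ k = 0 := a1' k
          have b4 : kc c ξ' k = 0 := a3' k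
          rw [b3, b4, zero_add, zero_add] at b1
          exact b1.symm
        have hPP : P = P' := by
          ext k
          have hθ1 : ∀ k ∈ T, θ k = 1 := fun k hk => by
            rw [hT] at hk
            exact (mem_filter.1 hk).2
          constructor
          · intro hk
            have := hval k
            rw [hθ1 k (a2' hk), if_pos hk] at this
            by_contra hk'
            rw [if_neg hk'] at this
            simp at this
          · intro hk
            have := hval k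
            rw [hθ1 k (a4' hk), if_pos hk] at this
            by_contra hk'
            rw [if_neg hk'] at this
            simp at this
        subst hPP
        have := add_right_cancel heq'
        rw [this]
      rw [card_product, card_powerset, card_univ] at h2
      exact h2
    have h3 : ((univ.filter fun ξ : Tu K U J => ∀ k, kc c ξ k = 0).card : ℝ) * 2 ^ T.card ≤
        Fintype.card (Tu K U J) := by exact_mod_cast h1
    have h4 : (2 : ℝ) ^ V ≤ 2 ^ T.card := pow_le_pow_right₀ (by norm_num) hTV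
    have h5 : ((univ.filter fun ξ : Tu K U J => ∀ k, kc c ξ k = 0).card : ℝ) * 2 ^ V ≤
        Fintype.card (Tu K U J) :=
      (mul_le_mul_of_nonneg_left h4 (Nat.cast_nonneg _)).trans h3
    rw [one_div, inv_pow, ← div_eq_inv_mul, le_div_iff₀ (by positivity)]
    exact h5
  have hsub : (univ.filter fun ξ : Tu K U J => ∀ k, kap uJ N A b ξ i k = 0) ⊆
      (univ.filter fun ξ : Tu K U J => ∀ k, kc 0 ξ k = 0) ∪
        (univ.filter fun ξ : Tu K U J => ∀ k, kc 1 ξ k = 0) := by
    intro ξ hξ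
    have h1 := (mem_filter.1 hξ).2
    rw [mem_union, mem_filter, mem_filter]
    have h2 : ∀ k, kap uJ N A b ξ i k = kc (∑ j, A i j * ∑ q, uJ q * Xf ξ q j) ξ k := by
      intro k
      rw [hkc]
      rfl
    have h3 : ∀ a : ZMod 2, a = 0 ∨ a = 1 := by decide
    rcases h3 (∑ j, A i j * ∑ q, uJ q * Xf ξ q j) with h | h
    · refine Or.inl ⟨mem_univ _, fun k => ?_⟩
      have h4 := h2 k
      rw [h] at h4
      rw [← h4]
      exact h1 k
    · refine Or.inr ⟨mem_univ _, fun k => ?_⟩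
      have h4 := h2 k
      rw [h] at h4
      rw [← h4]
      exact h1 k
  have h6 := (card_le_card hsub).trans (card_union_le _ _)
  have h7 : ((univ.filter fun ξ : Tu K U J => ∀ k, kap uJ N A b ξ i k = 0).card : ℝ) ≤
      ((univ.filter fun ξ : Tu K U J => ∀ k, kc 0 ξ k = 0).card : ℝ) +
        ((univ.filter fun ξ : Tu K U J => ∀ k, kc 1 ξ k = 0).card : ℝ) := by exact_mod_cast h6
  have h8 := hcount 0
  have h9 := hcount 1
  linarith

theorem t_CH1 : S_CH1 := by
  intro t n K U _ J _ w uU uJ N NJ x JR H V hV1 hV2 A hA hA0 b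
  have : ∃ i j, A i j ≠ 0 := by
    by_contra h
    push Not at h
    exact hA0 (funext fun i => funext fun j => h i j)
  obtain ⟨i, j, hij⟩ := this
  exact (t_CHA t n K U J w uU uJ N NJ x JR H A hA b i).trans
    (t_CHB t n K U J w uU uJ N NJ x JR H V hV1 hV2 A hA b i j hij)

end

end Pool.Agent.L0h37.SJ
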