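import Pool.Agent.L0h37.SJ.CH

/-!
# Project SJ (helper1), module MNC: the main term
-/

set_option autoImplicit false
set_option linter.all false
set_option maxHeartbeats 2000000

open scoped Classical
open Finset

namespace Pool.Agent.L0h37.SJ

open Pool.Agent.L0h1.SJ

section

variable {t : ℕ} {K : Fin t → ℕ} {U : Fin t → Type} [∀ l, Fintype (U l)] {J : Type} [Fintype J]

/-- the multipliers -/
abbrev Bt (K : Fin t → ℕ) (U : Fin t → Type) : Type := ∀ l, Fin (K l) → U l → ZMod 2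

/-- the small coordinates and the labels -/
def eqv (K : Fin t → ℕ) (U : Fin t → Type) (J : Type) :
    Tu K U J ≃ Bt K U × (J → Ix K → ZMod 2) where
  toFun ξ := (fun l i v => ξ l i (Sum.inl v), Xf ξ)
  invFun p := fun l i s => Sum.elim (p.1 l i) (fun q => p.2 q ⟨l, i⟩) s
  left_inv ξ := by
    funext l i s
    cases s <;> rfl
  right_inv p := rfl

theorem card_Tu (K : Fin t → ℕ) (U : Fin t → Type) [∀ l, Fintype (U l)] (J : Type) [Fintype J] :
    Fintype.card (Tu K U J) = Fintype.card (Bt K U) *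
      (2 ^ Fintype.card (Ix K)) ^ Fintype.card J := by
  rw [Fintype.card_congr (eqv K U J), Fintype.card_prod, Fintype.card_fun, Fintype.card_fun,
    ZMod.card]

theorem card_Bt (K : Fin t → ℕ) (U : Fin t → Type) [∀ l, Fintype (U l)] :
    Fintype.card (Bt K U) ≤ (2 ^ Fintype.card (Ix K)) ^ sz U := by
  have h1 : Fintype.card (Bt K U) = 2 ^ ∑ l, Fintype.card (U l) * K l := by
    show Fintype.card (∀ l, Fin (K l) → U l → ZMod 2) = _
    rw [Fintype.card_pi]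
    rw [← prod_pow_eq_pow_sum]
    refine prod_congr rfl fun l _ => ?_
    rw [Fintype.card_fun, Fintype.card_fun, ZMod.card, Fintype.card_fin, pow_mul]
  have h2 : Fintype.card (Ix K) = ∑ l, K l := by
    rw [Fintype.card_sigma]
    exact sum_congr rfl fun l _ => Fintype.card_fin _
  rw [h1, ← pow_mul]
  apply Nat.pow_le_pow_right (by norm_num)
  rw [h2, sum_mul]
  refine sum_le_sum fun l _ => ?_
  rw [mul_comm]
  refine Nat.mul_le_mul_left _ ?_
  unfold sz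
  have := single_le_sum (f := fun l => Fintype.card (U l)) (fun _ _ => Nat.zero_le _) (mem_univ l)
  exact this.trans (Nat.le_succ _)

/-- the tuples for which a label is missing -/
theorem card_nonsurj (K : Fin t → ℕ) (U : Fin t → Type) [∀ l, Fintype (U l)] (J : Type)
    [Fintype J] :
    (univ.filter fun ξ : Tu K U J => ¬ Function.Surjective (Xf ξ)).card ≤
      2 ^ Fintype.card (Ix K) *
        (Fintype.card (Bt K U) * (2 ^ Fintype.card (Ix K) - 1) ^ Fintype.card J) := by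
  have h1 : (univ.filter fun ξ : Tu K U J => ¬ Function.Surjective (Xf ξ)) ⊆
      (univ : Finset (Ix K → ZMod 2)).biUnion fun a =>
        univ.filter fun ξ : Tu K U J => ∀ q, Xf ξ q ≠ a := by
    intro ξ hξ
    have h2 := (mem_filter.1 hξ).2
    unfold Function.Surjective at h2
    push Not at h2
    obtain ⟨a, ha⟩ := h2
    rw [mem_biUnion]
    exact ⟨a, mem_univ _, mem_filter.2 ⟨mem_univ _, ha⟩⟩
  refine (card_le_card h1).trans (card_biUnion_le.trans ?_)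
  have h3 : ∀ a : Ix K → ZMod 2, (univ.filter fun ξ : Tu K U J => ∀ q, Xf ξ q ≠ a).card ≤
      Fintype.card (Bt K U) * (2 ^ Fintype.card (Ix K) - 1) ^ Fintype.card J := by
    intro a
    have h4 : (univ.filter fun ξ : Tu K U J => ∀ q, Xf ξ q ≠ a).card ≤
        ((univ : Finset (Bt K U)) ×ˢ Fintype.piFinset fun _ : J => univ.erase a).card := by
      refine card_le_card_of_injOn (eqv K U J) ?_ ((eqv K U J).injective.injOn)
      intro ξ hξ
      have h5 := (mem_filter.1 (mem_coe.1 hξ)).2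
      refine mem_coe.2 (mem_product.2 ⟨mem_univ _, ?_⟩)
      rw [Fintype.mem_piFinset]
      intro q
      exact mem_erase.2 ⟨h5 q, mem_univ _⟩
    refine h4.trans (le_of_eq ?_)
    rw [card_product, card_univ, Fintype.card_piFinset, prod_const, card_erase_of_mem (mem_univ _),
      card_univ, card_univ, Fintype.card_fun, ZMod.card]
  refine (sum_le_sum fun a _ => h3 a).trans (le_of_eq ?_)
  rw [sum_const, card_univ, Fintype.card_fun, ZMod.card, smul_eq_mul]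

/-- orthogonality for the multipliers -/
theorem sum_Bt (z : Bt K U) : ∑ b : Bt K U, sr (∑ l, ∑ i, ∑ v, b l i v * z l i v) =
    if ∀ l i v, z l i v = 0 then (Fintype.card (Bt K U) : ℝ) else 0 := by
  split_ifs with h
  · have h1 : ∀ b : Bt K U, sr (∑ l, ∑ i, ∑ v, b l i v * z l i v) = 1 := by
      intro b
      rw [sum_eq_zero fun l _ => sum_eq_zero fun i _ => sum_eq_zero fun v _ => by
        rw [h l i v, mul_zero], sr_zero]
    rw [sum_congr rfl fun b _ => h1 b, sum_const, card_univ, nsmul_eq_mul, mul_one]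
  · push Not at h
    obtain ⟨l, i, v, hv⟩ := h
    obtain ⟨e, he⟩ : ∃ e : Bt K U, e = fun l' i' v' =>
      if (⟨⟨l', i'⟩, v'⟩ : Σ j : Ix K, U j.1) = ⟨⟨l, i⟩, v⟩ then 1 else 0 := ⟨_, rfl⟩
    have hs : ∀ b : Bt K U, ∑ l, ∑ i, ∑ v, b l i v * z l i v =
        ∑ a : (Σ j : Ix K, U j.1), b a.1.1 a.1.2 a.2 * z a.1.1 a.1.2 a.2 := by
      intro b
      have e1 : ∑ l, ∑ i, ∑ v, b l i v * z l i v =
          ∑ j : Ix K, ∑ v, b j.1 j.2 v * z j.1 j.2 v :=
        (Fintype.sum_sigma' (fun l i => ∑ v, b l i v * z l i v)).symm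
      rw [e1]
      exact (Fintype.sum_sigma' (fun (j : Ix K) v => b j.1 j.2 v * z j.1 j.2 v)).symm
    refine sum_zero (fun b : Bt K U => ∑ l, ∑ i, ∑ v, b l i v * z l i v) e (z l i v) hv
      fun b => ?_
    show ∑ l, ∑ i, ∑ v, (b + e) l i v * z l i v = ∑ l, ∑ i, ∑ v, b l i v * z l i v + z l i v
    rw [hs, hs]
    have h1 : ∀ a : (Σ j : Ix K, U j.1), (b + e) a.1.1 a.1.2 a.2 * z a.1.1 a.1.2 a.2 =
        b a.1.1 a.1.2 a.2 * z a.1.1 a.1.2 a.2 +
          if a = ⟨⟨l, i⟩, v⟩ then z a.1.1 a.1.2 a.2 else 0 := by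
      intro a
      have h2 : (b + e) a.1.1 a.1.2 a.2 = b a.1.1 a.1.2 a.2 + if a = ⟨⟨l, i⟩, v⟩ then 1 else 0 := by
        rw [he]
        rfl
      rw [h2, add_mul]
      congr 1
      split_ifs with h'
      · rw [one_mul]
      · rw [zero_mul]
    rw [sum_congr rfl fun a _ => h1 a, sum_add_distrib, sum_ite_eq', if_pos (mem_univ _)]

end

theorem pr_add_const {J I : Type} [Fintype J] [Fintype I] (y b : J → I → ZMod 2)
    (c : I → ZMod 2) (h : ∀ i, ∑ q, b q i = 0) : pr (fun q i => y q i + c i) b = pr y b := by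
  unfold pr
  simp only [add_mul, sum_add_distrib]
  have : ∑ q, ∑ i, c i * b q i = 0 := by
    rw [sum_comm]
    refine sum_eq_zero fun i _ => ?_
    rw [← mul_sum, h i, mul_zero]
  rw [this, add_zero]

theorem zero_mem_Al (I : Type) [Fintype I] : (0 : I → I → ZMod 2) ∈ Al I := by
  unfold Al
  rw [mem_filter]
  exact ⟨mem_univ _, fun _ _ => rfl, fun _ => rfl⟩

/-- the sum over the relations -/
theorem par_sum (hPAR : S_PAR) {J I : Type} [Fintype J] [Fintype I] (X b : J → I → ZMod 2)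
    (hX : Function.Surjective X) (h : ∀ i, ∑ q, b q i = 0) :
    ∑ y ∈ RX X, sr (pr y b) = 2 ^ Fintype.card I *
      ∑ A ∈ Al I, sr (pr (fun q i => ∑ j, A i j * X q j) b) := by
  rw [hPAR J I X hX (fun y => sr (pr y b)), mul_sum]
  refine sum_congr rfl fun A _ => ?_
  rw [sum_congr rfl fun c _ => by rw [pr_add_const _ _ c h], sum_const, card_univ,
    Fintype.card_fun, ZMod.card, nsmul_eq_mul]
  push_cast
  rfl

theorem core (hPAR : S_PAR) (hROW : S_ROW) (hC0 : S_CH0) (hC1 : S_CH1) (t n : ℕ)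
    (K : Fin t → ℕ) (ε : ℝ) (hε : 0 < ε) : ∃ C₀ : ℕ, ∀ (U : Fin t → Type)
  [∀ l, Fintype (U l)] (J : Type) [Fintype J]
  (w : ∀ l, U l ⊕ J → ZMod 2) (uU : ∀ l, U l → ZMod 2) (uJ : J → ZMod 2)
  (N : ∀ l, U l ⊕ J → U l ⊕ J → ZMod 2) (NJ : J → J → ZMod 2)
  (x : Fin t → Fin n → ZMod 2) (JR : Fin n → Finset J), Hl w uU uJ N NJ x JR →
  C₀ * sz U ≤ (univ.filter fun k => uJ k = 1).card → (∀ r, C₀ * sz U ≤ (JR r).card) →
  |∑ ξ ∈ univ.filter (fun ξ : Tu K U J => Function.Surjective (Xf ξ) ∧ Sml N ξ),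
      ∑ y ∈ RX (Xf ξ), sr (pr y (tg N ξ)) -
    2 ^ (∑ l, K l) * 2 ^ (Fintype.card J * Fintype.card (Ix K))| ≤
    ε * 2 ^ (Fintype.card J * Fintype.card (Ix K)) := by
  obtain ⟨k, hk⟩ : ∃ k : ℕ, k = Fintype.card (Ix K) := ⟨_, rfl⟩
  obtain ⟨ρ, hρ⟩ : ∃ ρ : ℝ, ρ = max (1 - (1 / 2) ^ k) (1 / 2) := ⟨_, rfl⟩
  have hρ1 : ρ < 1 := by
    rw [hρ]
    apply max_lt
    · have : (0 : ℝ) < (1 / 2) ^ k := by positivity
      linarith
    · norm_num
  have hρ0 : 0 ≤ ρ := by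
    rw [hρ]
    exact le_max_of_le_right (by norm_num)
  have hρa : 1 - (1 / 2 : ℝ) ^ k ≤ ρ := by
    rw [hρ]
    exact le_max_left _ _
  have hρb : (1 / 2 : ℝ) ≤ ρ := by
    rw [hρ]
    exact le_max_right _ _
  obtain ⟨cA, hcA⟩ : ∃ cA : ℝ, cA = ((Al (Ix K)).card : ℝ) := ⟨_, rfl⟩
  have hcA0 : 0 ≤ cA := by rw [hcA]; exact Nat.cast_nonneg _
  obtain ⟨c, hc⟩ : ∃ c : ℝ, c = 2 ^ k * cA * (2 ^ k + 2) + 1 := ⟨_, rfl⟩
  have hc0 : 0 < c := by rw [hc]; positivity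
  obtain ⟨C₀, hC₀⟩ := exists_pow_lt_of_lt_one (show 0 < min 1 (ε / c) / 2 ^ k by
    apply div_pos (lt_min one_pos (div_pos hε hc0)) (by positivity)) hρ1
  refine ⟨C₀, ?_⟩
  intro U _ J _ w uU uJ N NJ x JR H hV1 hV2
  obtain ⟨F, hF⟩ : ∃ F : Tu K U J → ℝ, F = fun ξ =>
    2 ^ k * ∑ A ∈ Al (Ix K), sr (pr (fun q i => ∑ j, A i j * Xf ξ q j) (tg N ξ)) := ⟨_, rfl⟩
  obtain ⟨β, hβ⟩ : ∃ β : ℝ, β = (Fintype.card (Bt K U) : ℝ) := ⟨_, rfl⟩
  have hβ0 : 0 < β := by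
    rw [hβ]
    exact_mod_cast Fintype.card_pos
  obtain ⟨V, hV⟩ : ∃ V : ℕ, V = C₀ * sz U := ⟨_, rfl⟩
  obtain ⟨m, hm⟩ : ∃ m : ℕ, m = Fintype.card J := ⟨_, rfl⟩
  have hVm : V ≤ m := by
    rw [hV, hm]
    exact hV1.trans (card_le_univ _)
  -- step 1
  have s1 : ∀ ξ : Tu K U J, Function.Surjective (Xf ξ) → Sml N ξ →
      ∑ y ∈ RX (Xf ξ), sr (pr y (tg N ξ)) = F ξ := by
    intro ξ h1 h2
    rw [par_sum hPAR _ _ h1 (hROW t n K U J w uU uJ N NJ x JR H ξ h2), hF, hk]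
  have s1' : ∑ ξ ∈ univ.filter (fun ξ : Tu K U J => Function.Surjective (Xf ξ) ∧ Sml N ξ),
      ∑ y ∈ RX (Xf ξ), sr (pr y (tg N ξ)) =
      ∑ ξ ∈ univ.filter (fun ξ : Tu K U J => Function.Surjective (Xf ξ) ∧ Sml N ξ), F ξ :=
    sum_congr rfl fun ξ hξ => s1 ξ (mem_filter.1 hξ).2.1 (mem_filter.1 hξ).2.2
  have hFb : ∀ ξ, |F ξ| ≤ 2 ^ k * cA := by
    intro ξ
    rw [hF]
    beta_reduce
    rw [abs_mul, abs_of_pos (show (0 : ℝ) < 2 ^ k by positivity)]
    refine mul_le_mul_of_nonneg_left ((abs_sum_le_sum_abs _ _).trans (le_of_eq ?_)) (by positivity)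
    rw [sum_congr rfl fun A _ => abs_sr _, sum_const, nsmul_eq_mul, mul_one, hcA]
  -- step 2
  have s2 : |∑ ξ ∈ univ.filter (fun ξ : Tu K U J => Sml N ξ), F ξ -
      ∑ ξ ∈ univ.filter (fun ξ : Tu K U J => Function.Surjective (Xf ξ) ∧ Sml N ξ), F ξ| ≤
      (2 ^ k * (β * (2 ^ k - 1) ^ m)) * (2 ^ k * cA) := by
    have e1 : ∑ ξ ∈ univ.filter (fun ξ : Tu K U J => Sml N ξ), F ξ =
        ∑ ξ ∈ univ.filter (fun ξ : Tu K U J => Function.Surjective (Xf ξ) ∧ Sml N ξ), F ξ +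
        ∑ ξ ∈ univ.filter (fun ξ : Tu K U J => ¬ Function.Surjective (Xf ξ) ∧ Sml N ξ), F ξ := by
      rw [← sum_filter_add_sum_filter_not (univ.filter fun ξ : Tu K U J => Sml N ξ)
        (fun ξ => Function.Surjective (Xf ξ)), filter_filter, filter_filter]
      congr 1
      · refine sum_congr ?_ fun _ _ => rfl
        ext ξ
        simp only [mem_filter, and_comm]
      · refine sum_congr ?_ fun _ _ => rfl
        ext ξ
        simp only [mem_filter, and_comm]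
    rw [e1, add_sub_cancel_left]
    refine (abs_sum_le_sum_abs _ _).trans ?_
    refine (sum_le_sum fun ξ _ => hFb ξ).trans ?_
    rw [sum_const, nsmul_eq_mul]
    refine mul_le_mul_of_nonneg_right ?_ (by positivity)
    have h1 : (univ.filter fun ξ : Tu K U J => ¬ Function.Surjective (Xf ξ) ∧ Sml N ξ).card ≤
        (univ.filter fun ξ : Tu K U J => ¬ Function.Surjective (Xf ξ)).card :=
      card_le_card fun ξ hξ => mem_filter.2 ⟨mem_univ _, (mem_filter.1 hξ).2.1⟩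
    have h2 := h1.trans (card_nonsurj K U J)
    have h3 : ((univ.filter fun ξ : Tu K U J => ¬ Function.Surjective (Xf ξ) ∧
        Sml N ξ).card : ℝ) ≤ ((2 ^ Fintype.card (Ix K) *
        (Fintype.card (Bt K U) * (2 ^ Fintype.card (Ix K) - 1) ^ Fintype.card J) : ℕ) : ℝ) := by
      exact_mod_cast h2
    refine h3.trans (le_of_eq ?_)
    have h4 : ((2 ^ Fintype.card (Ix K) - 1 : ℕ) : ℝ) = 2 ^ k - 1 := by
      rw [Nat.cast_sub Nat.one_le_two_pow, hk]
      push_cast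
      rfl
    rw [Nat.cast_mul, Nat.cast_mul, Nat.cast_pow (2 ^ Fintype.card (Ix K) - 1), h4, ← hβ, ← hm,
      ← hk]
    push_cast
    rfl
  -- step 3
  have s3 : β * ∑ ξ ∈ univ.filter (fun ξ : Tu K U J => Sml N ξ), F ξ =
      2 ^ k * ∑ A ∈ Al (Ix K), ∑ b : Bt K U, ∑ ξ : Tu K U J, sr (ch N A b ξ) := by
    have e1 : ∀ ξ : Tu K U J, (if Sml N ξ then β * F ξ else 0) =
        2 ^ k * ∑ A ∈ Al (Ix K), ∑ b : Bt K U, sr (ch N A b ξ) := by
      intro ξ
      have e2 := sum_Bt (K := K) (U := U) (fun l i v => Pool.Agent.L0h1.SJ.sq N ξ l i v)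
      have e3 : ∑ A ∈ Al (Ix K), ∑ b : Bt K U, sr (ch N A b ξ) =
          (∑ A ∈ Al (Ix K), sr (pr (fun q i => ∑ j, A i j * Xf ξ q j) (tg N ξ))) *
            ∑ b : Bt K U, sr (∑ l, ∑ i, ∑ v, b l i v * Pool.Agent.L0h1.SJ.sq N ξ l i v) := by
        rw [sum_mul_sum]
        refine sum_congr rfl fun A _ => sum_congr rfl fun b _ => ?_
        unfold ch
        rw [sr_add]
      rw [e3, e2, hF, hβ]
      beta_reduce
      have e4 : Sml N ξ ↔ ∀ l i v, Pool.Agent.L0h1.SJ.sq N ξ l i v = 0 := Iff.rfl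
      by_cases h : Sml N ξ
      · rw [if_pos h, if_pos (e4.1 h)]
        ring
      · rw [if_neg h, if_neg (fun h' => h (e4.2 h'))]
        ring
    rw [mul_sum, sum_filter, sum_congr rfl fun ξ _ => e1 ξ, ← mul_sum]
    congr 1
    rw [sum_comm]
    refine sum_congr rfl fun A _ => ?_
    rw [sum_comm]
  have hTu : (Fintype.card (Tu K U J) : ℝ) = β * (2 ^ k) ^ m := by
    rw [card_Tu, hβ, hk, hm]
    push_cast
    rfl
  have s4 : |∑ A ∈ Al (Ix K), ∑ b : Bt K U, ∑ ξ : Tu K U J, sr (ch N A b ξ) -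
      β * (2 ^ k) ^ m| ≤ cA * (β * (2 * (1 / 2) ^ V * (β * (2 ^ k) ^ m))) := by
    have e0 : ∑ b : Bt K U, ∑ ξ : Tu K U J, sr (ch N 0 b ξ) = β * (2 ^ k) ^ m := by
      rw [Fintype.sum_eq_single (0 : Bt K U)]
      · have : ∀ ξ : Tu K U J, sr (ch N 0 (0 : Bt K U) ξ) = 1 := by
          intro ξ
          have h1 : ch N 0 (0 : Bt K U) ξ = 0 := by
            unfold ch pr
            have a1 : ∑ q, ∑ i, (∑ j, (0 : Ix K → Ix K → ZMod 2) i j * Xf ξ q j) * tg N ξ q i =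
                0 := by
              refine sum_eq_zero fun q _ => sum_eq_zero fun i _ => ?_
              rw [sum_eq_zero fun j _ => zero_mul _, zero_mul]
            have a2 : ∑ l, ∑ i, ∑ v, (0 : Bt K U) l i v * Pool.Agent.L0h1.SJ.sq N ξ l i v = 0 :=
              sum_eq_zero fun l _ => sum_eq_zero fun i _ => sum_eq_zero fun v _ => zero_mul _
            rw [a2, add_zero]
            exact a1
          rw [h1, sr_zero]
        rw [sum_congr rfl fun ξ _ => this ξ, sum_const, card_univ, nsmul_eq_mul, mul_one, hTu]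
      · intro b hb
        exact hC0 t n K U J w uU uJ N NJ x JR H b hb
    have e1 : ∑ A ∈ Al (Ix K), ∑ b : Bt K U, ∑ ξ : Tu K U J, sr (ch N A b ξ) -
        β * (2 ^ k) ^ m = ∑ A ∈ (Al (Ix K)).erase 0, ∑ b : Bt K U, ∑ ξ : Tu K U J,
          sr (ch N A b ξ) := by
      rw [← add_sum_erase _ _ (zero_mem_Al (Ix K)), e0]
      ring
    rw [e1]
    refine (abs_sum_le_sum_abs _ _).trans ?_
    have e2 : ∀ A ∈ (Al (Ix K)).erase 0, |∑ b : Bt K U, ∑ ξ : Tu K U J, sr (ch N A b ξ)| ≤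
        β * (2 * (1 / 2) ^ V * (β * (2 ^ k) ^ m)) := by
      intro A hA
      obtain ⟨a1, a2⟩ := mem_erase.1 hA
      refine (abs_sum_le_sum_abs _ _).trans ?_
      refine (sum_le_sum fun b _ => hC1 t n K U J w uU uJ N NJ x JR H V
        (by rw [hV]; exact hV1) (fun r => by rw [hV]; exact hV2 r) A a2 a1 b).trans (le_of_eq ?_)
      rw [sum_const, card_univ, nsmul_eq_mul, hTu, hβ]
    refine (sum_le_sum e2).trans ?_
    rw [sum_const, nsmul_eq_mul]
    refine mul_le_mul_of_nonneg_right ?_ (by positivity)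
    rw [hcA]
    exact_mod_cast card_le_card (erase_subset _ _)
  have s5 : |∑ ξ ∈ univ.filter (fun ξ : Tu K U J => Sml N ξ), F ξ - 2 ^ k * (2 ^ k) ^ m| ≤
      2 ^ k * (cA * (2 * (1 / 2) ^ V * (β * (2 ^ k) ^ m))) := by
    have e1 : β * (∑ ξ ∈ univ.filter (fun ξ : Tu K U J => Sml N ξ), F ξ - 2 ^ k * (2 ^ k) ^ m) =
        2 ^ k * (∑ A ∈ Al (Ix K), ∑ b : Bt K U, ∑ ξ : Tu K U J, sr (ch N A b ξ) -
          β * (2 ^ k) ^ m) := by
      rw [mul_sub, s3]
      ring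
    have e2 := congrArg abs e1
    rw [abs_mul, abs_mul, abs_of_pos hβ0, abs_of_pos (show (0 : ℝ) < 2 ^ k by positivity)] at e2
    have e3 : β * |∑ ξ ∈ univ.filter (fun ξ : Tu K U J => Sml N ξ), F ξ - 2 ^ k * (2 ^ k) ^ m| ≤
        β * (2 ^ k * (cA * (2 * (1 / 2) ^ V * (β * (2 ^ k) ^ m)))) := by
      rw [e2]
      calc _ ≤ 2 ^ k * (cA * (β * (2 * (1 / 2) ^ V * (β * (2 ^ k) ^ m)))) :=
            mul_le_mul_of_nonneg_left s4 (by positivity)
        _ = _ := by ring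
    exact le_of_mul_le_mul_left e3 hβ0
  -- the numerical part
  have hβb : β ≤ (2 ^ k) ^ sz U := by
    rw [hβ, hk]
    exact_mod_cast card_Bt K U
  have hsz : 1 ≤ sz U := by
    unfold sz
    omega
  have n1 : ((2 : ℝ) ^ k - 1) ^ m ≤ (2 ^ k) ^ m * ρ ^ V := by
    have e1 : (2 : ℝ) ^ k - 1 = 2 ^ k * (1 - (1 / 2) ^ k) := by
      rw [mul_sub, ← mul_pow]
      norm_num
    rw [e1, mul_pow]
    refine mul_le_mul_of_nonneg_left ?_ (by positivity)
    have h0 : (0 : ℝ) ≤ 1 - (1 / 2) ^ k := by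
      have : (1 / 2 : ℝ) ^ k ≤ 1 := pow_le_one₀ (by norm_num) (by norm_num)
      linarith
    exact (pow_le_pow_left₀ h0 hρa m).trans (pow_le_pow_of_le_one hρ0 hρ1.le hVm)
  have n2 : (1 / 2 : ℝ) ^ V ≤ ρ ^ V := pow_le_pow_left₀ (by norm_num) hρb V
  have n3 : β * ρ ^ V ≤ ε / c := by
    have h1 : ρ ^ V = (ρ ^ C₀) ^ sz U := by
      rw [hV, pow_mul]
    have h2 : 2 ^ k * ρ ^ C₀ ≤ min 1 (ε / c) := by
      rw [lt_div_iff₀ (by positivity)] at hC₀
      linarith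
    calc β * ρ ^ V ≤ (2 ^ k) ^ sz U * (ρ ^ C₀) ^ sz U := by
          rw [h1]
          exact mul_le_mul_of_nonneg_right hβb (by positivity)
      _ = (2 ^ k * ρ ^ C₀) ^ sz U := by rw [mul_pow]
      _ ≤ (2 ^ k * ρ ^ C₀) ^ 1 := by
          apply pow_le_pow_of_le_one (by positivity) (h2.trans (min_le_left _ _)) hsz
      _ ≤ ε / c := by
          rw [pow_one]
          exact h2.trans (min_le_right _ _)
  have hKk : (2 : ℝ) ^ (∑ l, K l) = 2 ^ k := by
    rw [hk, Fintype.card_sigma]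
    congr 1
    exact sum_congr rfl fun l _ => (Fintype.card_fin _).symm
  have hJk : (2 : ℝ) ^ (Fintype.card J * Fintype.card (Ix K)) = (2 ^ k) ^ m := by
    rw [hk, hm, ← pow_mul, mul_comm]
  rw [s1', hKk, hJk]
  have hfin : |∑ ξ ∈ univ.filter (fun ξ : Tu K U J => Function.Surjective (Xf ξ) ∧ Sml N ξ), F ξ -
      2 ^ k * (2 ^ k) ^ m| ≤ (2 ^ k * (β * (2 ^ k - 1) ^ m)) * (2 ^ k * cA) +
        2 ^ k * (cA * (2 * (1 / 2) ^ V * (β * (2 ^ k) ^ m))) := by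
    have a1 := abs_le.1 s2
    have a2 := abs_le.1 s5
    rw [abs_le]
    constructor <;> linarith [a1.1, a1.2, a2.1, a2.2]
  refine hfin.trans ?_
  have b1 : (2 ^ k * (β * (2 ^ k - 1) ^ m)) * (2 ^ k * cA) ≤
      2 ^ k * cA * 2 ^ k * (β * ρ ^ V) * (2 ^ k) ^ m := by
    have : β * (2 ^ k - 1) ^ m ≤ β * ((2 ^ k) ^ m * ρ ^ V) := mul_le_mul_of_nonneg_left n1 hβ0.le
    calc (2 ^ k * (β * (2 ^ k - 1) ^ m)) * (2 ^ k * cA)
        ≤ (2 ^ k * (β * ((2 ^ k) ^ m * ρ ^ V))) * (2 ^ k * cA) :=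
          mul_le_mul_of_nonneg_right (mul_le_mul_of_nonneg_left this (by positivity))
            (by positivity)
      _ = _ := by ring
  have b2 : 2 ^ k * (cA * (2 * (1 / 2) ^ V * (β * (2 ^ k) ^ m))) ≤
      2 ^ k * cA * 2 * (β * ρ ^ V) * (2 ^ k) ^ m := by
    calc 2 ^ k * (cA * (2 * (1 / 2) ^ V * (β * (2 ^ k) ^ m)))
        = (2 ^ k * cA * 2 * β * (2 ^ k) ^ m) * (1 / 2) ^ V := by ring
      _ ≤ (2 ^ k * cA * 2 * β * (2 ^ k) ^ m) * ρ ^ V :=
          mul_le_mul_of_nonneg_left n2 (by positivity)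
      _ = _ := by ring
  have b3 : 2 ^ k * cA * 2 ^ k * (β * ρ ^ V) * (2 ^ k) ^ m +
      2 ^ k * cA * 2 * (β * ρ ^ V) * (2 ^ k) ^ m =
      (2 ^ k * cA * (2 ^ k + 2)) * (β * ρ ^ V) * (2 ^ k) ^ m := by ring
  have b4 : (2 ^ k * cA * (2 ^ k + 2)) * (β * ρ ^ V) ≤ ε := by
    have h1 : 0 ≤ β * ρ ^ V := by positivity
    have h2 : (2 ^ k * cA * (2 ^ k + 2)) ≤ c := by
      rw [hc]
      linarith
    calc (2 ^ k * cA * (2 ^ k + 2)) * (β * ρ ^ V) ≤ c * (ε / c) :=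
          mul_le_mul h2 n3 h1 hc0.le
      _ = ε := by field_simp
  have b5 := mul_le_mul_of_nonneg_right b4 (show (0 : ℝ) ≤ (2 ^ k) ^ m by positivity)
  linarith

/-- the same with arbitrary instances -/
theorem inst_free {α : Type} (p : α → Prop) (f : α → ℝ) (c d : ℝ) (i₁ i₂ : Fintype α)
    (d₁ d₂ : DecidablePred p)
    (h : |∑ ξ ∈ @Finset.filter α p d₁ (@Finset.univ α i₁), f ξ - c| ≤ d) :
    |∑ ξ ∈ @Finset.filter α p d₂ (@Finset.univ α i₂), f ξ - c| ≤ d := by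
  have e : @Finset.filter α p d₂ (@Finset.univ α i₂) = @Finset.filter α p d₁ (@Finset.univ α i₁) := by
    ext a
    constructor
    · intro h'
      exact (@Finset.mem_filter _ _ d₁ _ _).2 ⟨@Finset.mem_univ _ i₁ a,
        ((@Finset.mem_filter _ _ d₂ _ _).1 h').2⟩
    · intro h'
      exact (@Finset.mem_filter _ _ d₂ _ _).2 ⟨@Finset.mem_univ _ i₂ a,
        ((@Finset.mem_filter _ _ d₁ _ _).1 h').2⟩
  rw [e]
  exact h

theorem t_MNC : S_PAR → S_ROW → S_CH0 → S_CH1 → S_MNC := by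
  intro hPAR hROW hC0 hC1 t n K ε hε
  obtain ⟨C₀, h⟩ := core hPAR hROW hC0 hC1 t n K ε hε
  refine ⟨C₀, ?_⟩
  intro U _ J _ _ w uU uJ N NJ x JR H hV1 hV2
  have h1 := h U J w uU uJ N NJ x JR H hV1 hV2
  exact inst_free _ _ _ _ _ _ _ _ h1

end Pool.Agent.L0h37.SJ
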